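import Mathlib
import Pool.Agent.H.MP_dd23d5_gt.A

set_option autoImplicit false

namespace Pool.Agent.Results.MP_dd23d5_gt.CountablyBased

/-- A dcpo whose Scott space is locally compact is sober as soon as the Scott topology has a
countable base, or the dcpo is countable. -/
theorem result (P : Type) [PartialOrder P] [TopologicalSpace P] [Topology.IsScott P Set.univ]
    (hd : ∀ d : Set P, d.Nonempty → DirectedOn (· ≤ ·) d → ∃ x, IsLUB d x)
    (hl : LocallyCompactSpace P) (h : SecondCountableTopology P ∨ Countable P) :
    QuasiSober P ∧ T0Space P :=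
  ⟨Pool.Agent.H.MP_dd23d5_gt.sober_of hd h, inferInstance⟩

end Pool.Agent.Results.MP_dd23d5_gt.CountablyBased
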